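import Pool.Agent.Y520.AF.Alg
import Pool.Agent.Y520.AF.Stm2

/-!
# The order of the surface: a bound for the Hilbert function
-/

set_option autoImplicit false

noncomputable section

namespace Pool.Agent.Y74.AF

open Real Pool.Agent.Y520.AF

/-- the strip of the parameters as a type -/
abbrev U (s₀ : ℝ) : Type := {p : ℝ × ℝ // |p.1| < s₀}

variable {s₀ : ℝ}

/-- the monomial functions -/
def mon (j e k l : ℕ) : U s₀ → ℝ := fun p =>
  p.1.1 ^ j * gg p.1.2 ^ e * sin p.1.2 ^ k * cos p.1.2 ^ l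

/-- the set of the monomials of bidegree at most `(a, b)` -/
def MS (s₀ : ℝ) (a b : ℕ) : Set (U s₀ → ℝ) :=
  {f | ∃ j e k l : ℕ, j ≤ a ∧ e % 2 = j % 2 ∧ (k + l) % 2 = j % 2 ∧ k + l + 9 * e ≤ b ∧
    f = mon j e k l}

/-- the span of the monomials of bidegree at most `(a, b)` -/
def W (s₀ : ℝ) (a b : ℕ) : Submodule ℝ (U s₀ → ℝ) := Submodule.span ℝ (MS s₀ a b)

theorem mon_mem {a b j e k l : ℕ} (h1 : j ≤ a) (h2 : e % 2 = j % 2) (h3 : (k + l) % 2 = j % 2)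
    (h4 : k + l + 9 * e ≤ b) : (mon j e k l : U s₀ → ℝ) ∈ W s₀ a b :=
  Submodule.subset_span ⟨j, e, k, l, h1, h2, h3, h4, rfl⟩

theorem W_mono {a b a' b' : ℕ} (ha : a ≤ a') (hb : b ≤ b') : W s₀ a b ≤ W s₀ a' b' := by
  refine Submodule.span_mono ?_
  rintro f ⟨j, e, k, l, h1, h2, h3, h4, rfl⟩
  exact ⟨j, e, k, l, h1.trans ha, h2, h3, h4.trans hb, rfl⟩

theorem mon_mul (j e k l j' e' k' l' : ℕ) : (mon j e k l : U s₀ → ℝ) * mon j' e' k' l' =
    mon (j + j') (e + e') (k + k') (l + l') := by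
  funext p
  simp only [Pi.mul_apply, mon, pow_add]
  ring

theorem W_mul {a b a' b' : ℕ} {f g : U s₀ → ℝ} (hf : f ∈ W s₀ a b) (hg : g ∈ W s₀ a' b') :
    f * g ∈ W s₀ (a + a') (b + b') := by
  have h : f * g ∈ W s₀ a b * W s₀ a' b' := Submodule.mul_mem_mul hf hg
  unfold W at h
  rw [Submodule.span_mul_span] at h
  refine Submodule.span_mono ?_ h
  rintro x ⟨u, ⟨j, e, k, l, h1, h2, h3, h4, rfl⟩, v, ⟨j', e', k', l', h1', h2', h3', h4', rfl⟩, rfl⟩
  refine ⟨j + j', e + e', k + k', l + l', ?_, ?_, ?_, ?_, mon_mul _ _ _ _ _ _ _ _⟩ <;> omega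

theorem one_mem (a b : ℕ) : (1 : U s₀ → ℝ) ∈ W s₀ a b := by
  have h : (1 : U s₀ → ℝ) = mon 0 0 0 0 := by
    funext p; simp [mon]
  rw [h]
  exact mon_mem (Nat.zero_le _) rfl rfl (by omega)

theorem W_pow {a b : ℕ} {f : U s₀ → ℝ} (hf : f ∈ W s₀ a b) (n : ℕ) :
    f ^ n ∈ W s₀ (n * a) (n * b) := by
  induction n with
  | zero => rw [pow_zero]; exact one_mem _ _
  | succ n ih =>
    rw [pow_succ]
    have := W_mul ih hf
    rwa [← Nat.succ_mul, ← Nat.succ_mul] at this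

/-! ## The reduced span -/

/-- the reduced monomials -/
def rmon (a b : ℕ) (p : Fin (a + 1) × Fin (b + 1)) : U s₀ → ℝ :=
  mon p.1 (p.1 % 2) p.2 ((p.1 + p.2) % 2)

/-- the span of the reduced monomials -/
def G (s₀ : ℝ) (a b : ℕ) : Submodule ℝ (U s₀ → ℝ) := Submodule.span ℝ (Set.range (rmon a b))

theorem G_fin (a b : ℕ) : Module.finrank ℝ (G s₀ a b) ≤ (a + 1) * (b + 1) := by
  have h := finrank_range_le_card (R := ℝ) (rmon (s₀ := s₀) a b)
  rwa [Fintype.card_prod, Fintype.card_fin, Fintype.card_fin] at h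

instance (a b : ℕ) : Module.Finite ℝ (G s₀ a b) :=
  FiniteDimensional.span_of_finite ℝ (Set.finite_range _)

/-- the square of `gg` is a polynomial in `sin ^ 2` of degree at most nine -/
theorem gg_poly : ∃ q : Fin 10 → ℝ, ∀ x, gg x ^ 2 = ∑ i : Fin 10, q i * sin x ^ (2 * (i : ℕ)) := by
  refine ⟨![144, -912, 2560, -2040, -12048, 53840, -99072, 94464, -46080, 9216], fun x => ?_⟩
  rw [gg_sq]
  have hK : cos x ^ 2 = 1 - sin x ^ 2 := cos_sq' x
  have h0 : c0 x ^ 2 = 16 * (1 - sin x ^ 2) * (3 - 8 * sin x ^ 2 + 8 * sin x ^ 4) ^ 2 := by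
    unfold c0; rw [← hK]; ring
  rw [h0]
  unfold c1 c2
  simp [Fin.sum_univ_succ]
  ring

/-- every monomial is in the reduced span -/
theorem mon_red (a b : ℕ) : ∀ (n j e k l : ℕ), e + l ≤ n → j ≤ a → e % 2 = j % 2 →
    (k + l) % 2 = j % 2 → k + l + 9 * e ≤ b → (mon j e k l : U s₀ → ℝ) ∈ G s₀ a b := by
  intro n
  induction n using Nat.strong_induction_on with
  | _ n ih =>
    intro j e k l hn h1 h2 h3 h4
    by_cases he : 2 ≤ e
    · obtain ⟨q, hq⟩ := gg_poly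
      have h : (mon j e k l : U s₀ → ℝ) =
          ∑ i : Fin 10, q i • mon j (e - 2) (k + 2 * (i : ℕ)) l := by
        funext p
        rw [Finset.sum_apply]
        simp only [Pi.smul_apply, mon, smul_eq_mul]
        have e1 : gg p.1.2 ^ e = gg p.1.2 ^ (e - 2) * gg p.1.2 ^ 2 := by
          rw [← pow_add]; congr 1; omega
        rw [e1, hq, Finset.mul_sum, Finset.mul_sum, Finset.sum_mul, Finset.sum_mul]
        refine Finset.sum_congr rfl fun i _ => ?_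
        rw [pow_add]
        ring
      rw [h]
      refine Submodule.sum_mem _ fun i _ => Submodule.smul_mem _ _ ?_
      have hi := i.2
      exact ih (e - 2 + l) (by omega) j (e - 2) (k + 2 * (i : ℕ)) l le_rfl h1 (by omega)
        (by omega) (by omega)
    · by_cases hl : 2 ≤ l
      · have h : (mon j e k l : U s₀ → ℝ) = mon j e k (l - 2) - mon j e (k + 2) (l - 2) := by
          funext p
          simp only [Pi.sub_apply, mon]
          have e1 : cos p.1.2 ^ l = cos p.1.2 ^ (l - 2) * cos p.1.2 ^ 2 := by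
            rw [← pow_add]; congr 1; omega
          rw [e1, cos_sq', pow_add]
          ring
        rw [h]
        refine Submodule.sub_mem _ ?_ ?_
        · exact ih (e + (l - 2)) (by omega) j e k (l - 2) le_rfl h1 h2 (by omega) (by omega)
        · exact ih (e + (l - 2)) (by omega) j e (k + 2) (l - 2) le_rfl h1 h2 (by omega) (by omega)
      · refine Submodule.subset_span ⟨(⟨j, by omega⟩, ⟨k, by omega⟩), ?_⟩
        have e1 : j % 2 = e := by omega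
        have e2 : (j + k) % 2 = l := by omega
        simp only [rmon, e1, e2]

theorem W_le_G (a b : ℕ) : W s₀ a b ≤ G s₀ a b := by
  refine Submodule.span_le.2 ?_
  rintro f ⟨j, e, k, l, h1, h2, h3, h4, rfl⟩
  exact mon_red a b (e + l) j e k l le_rfl h1 h2 h3 h4

/-! ## The coordinates -/

/-- the factor -/
def w (s₀ : ℝ) : U s₀ → ℝ := fun p => (s₀ ^ 2 - p.1.1 ^ 2) * gg p.1.2 ^ 4

theorem w_pos (p : U s₀) : 0 < w s₀ p := by
  have h := gg_pos p.1.2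
  have h1 : 0 < s₀ ^ 2 - p.1.1 ^ 2 := by
    have := sq_lt_sq' (abs_lt.1 p.2).1 (abs_lt.1 p.2).2
    linarith
  unfold w
  positivity

theorem s_mem : (fun p => s₀ ^ 2 - p.1.1 ^ 2 : U s₀ → ℝ) ∈ W s₀ 2 0 := by
  have h : (fun p => s₀ ^ 2 - p.1.1 ^ 2 : U s₀ → ℝ) = s₀ ^ 2 • mon 0 0 0 0 - mon 2 0 0 0 := by
    funext p
    simp [mon]
  rw [h]
  exact Submodule.sub_mem _ (Submodule.smul_mem _ _ (mon_mem (by omega) rfl rfl (by omega)))
    (mon_mem (by omega) rfl rfl (by omega))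

theorem g4_mem : (fun p => gg p.1.2 ^ 4 : U s₀ → ℝ) ∈ W s₀ 0 36 := by
  have h : (fun p => gg p.1.2 ^ 4 : U s₀ → ℝ) = mon 0 4 0 0 := by
    funext p
    simp [mon]
  rw [h]
  exact mon_mem (by omega) rfl rfl (by omega)

theorem g2_mem : (fun p => gg p.1.2 ^ 2 : U s₀ → ℝ) ∈ W s₀ 0 18 := by
  have h : (fun p => gg p.1.2 ^ 2 : U s₀ → ℝ) = mon 0 2 0 0 := by
    funext p
    simp [mon]
  rw [h]
  exact mon_mem (by omega) rfl rfl (by omega)

theorem r0_mem : (fun p => r0 p.1.2 : U s₀ → ℝ) ∈ W s₀ 0 6 := by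
  have h : (fun p => r0 p.1.2 : U s₀ → ℝ) = mon 0 0 6 0 := by
    funext p
    simp [mon, r0]
  rw [h]
  exact mon_mem (by omega) rfl rfl (by omega)

theorem r1_mem : (fun p => r1 p.1.2 : U s₀ → ℝ) ∈ W s₀ 0 6 := by
  have h : (fun p => r1 p.1.2 : U s₀ → ℝ) = mon 0 0 1 1 := by
    funext p
    simp [mon, r1]
  rw [h]
  exact mon_mem (by omega) rfl rfl (by omega)

theorem r2_mem : (fun p => r2 p.1.2 : U s₀ → ℝ) ∈ W s₀ 0 6 := by
  have h : (fun p => r2 p.1.2 : U s₀ → ℝ) = mon 0 0 1 1 - (2 : ℝ) • mon 0 0 3 1 := by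
    funext p
    simp [mon, r2]
    ring
  rw [h]
  exact Submodule.sub_mem _ (mon_mem (by omega) rfl rfl (by omega))
    (Submodule.smul_mem _ _ (mon_mem (by omega) rfl rfl (by omega)))

theorem p0_mem : (fun p => p0 p.1.2 : U s₀ → ℝ) ∈ W s₀ 0 6 := by
  have h : (fun p => p0 p.1.2 : U s₀ → ℝ) = (6 : ℝ) • mon 0 0 5 1 := by
    funext p
    simp [mon, p0]
    ring
  rw [h]
  exact Submodule.smul_mem _ _ (mon_mem (by omega) rfl rfl (by omega))

theorem p1_mem : (fun p => p1 p.1.2 : U s₀ → ℝ) ∈ W s₀ 0 6 := by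
  have h : (fun p => p1 p.1.2 : U s₀ → ℝ) = mon 0 0 0 0 - (2 : ℝ) • mon 0 0 2 0 := by
    funext p
    simp [mon, p1]
  rw [h]
  exact Submodule.sub_mem _ (mon_mem (by omega) rfl rfl (by omega))
    (Submodule.smul_mem _ _ (mon_mem (by omega) rfl rfl (by omega)))

theorem p2_mem : (fun p => p2 p.1.2 : U s₀ → ℝ) ∈ W s₀ 0 6 := by
  have h : (fun p => p2 p.1.2 : U s₀ → ℝ) = mon 0 0 0 0 - (8 : ℝ) • mon 0 0 2 0 +
      (8 : ℝ) • mon 0 0 4 0 := by
    funext p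
    simp [mon, p2]
  rw [h]
  exact Submodule.add_mem _ (Submodule.sub_mem _ (mon_mem (by omega) rfl rfl (by omega))
    (Submodule.smul_mem _ _ (mon_mem (by omega) rfl rfl (by omega))))
    (Submodule.smul_mem _ _ (mon_mem (by omega) rfl rfl (by omega)))

theorem rh_mem : (fun p => rh p.1.2 ^ 2 : U s₀ → ℝ) ∈ W s₀ 0 12 := by
  have h : (fun p => rh p.1.2 ^ 2 : U s₀ → ℝ) = (fun p => p0 p.1.2) * (fun p => p0 p.1.2) +
      (fun p => p1 p.1.2) * (fun p => p1 p.1.2) + (fun p => p2 p.1.2) * (fun p => p2 p.1.2) := by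
    funext p
    simp only [Pi.add_apply, Pi.mul_apply]
    rw [rh_sq]
    ring
  rw [h]
  have a0 := W_mul (s₀ := s₀) p0_mem p0_mem
  have a1 := W_mul (s₀ := s₀) p1_mem p1_mem
  have a2 := W_mul (s₀ := s₀) p2_mem p2_mem
  have b0 := Submodule.add_mem _ (Submodule.add_mem _ a0 a1) a2
  exact W_mono (s₀ := s₀) (a := 0 + 0) (b := 6 + 6) (a' := 0) (b' := 12) (by omega) (by omega) b0

theorem mm_mem : (fun p => p.1.1 * gg p.1.2 * mm p.1.2 : U s₀ → ℝ) ∈ W s₀ 1 18 := by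
  have h : (fun p => p.1.1 * gg p.1.2 * mm p.1.2 : U s₀ → ℝ) =
      (-1080 : ℝ) • mon 1 1 1 0 + (3840 : ℝ) • mon 1 1 3 0 + (-5760 : ℝ) • mon 1 1 5 0 +
      (4608 : ℝ) • mon 1 1 7 0 + (-1536 : ℝ) • mon 1 1 9 0 := by
    funext p
    simp [mon, mm]
    ring
  rw [h]
  refine Submodule.add_mem _ (Submodule.add_mem _ (Submodule.add_mem _ (Submodule.add_mem _
    ?_ ?_) ?_) ?_) ?_ <;>
  exact Submodule.smul_mem _ _ (mon_mem (by omega) rfl rfl (by omega))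

theorem c0_mem : (fun p => p.1.1 * gg p.1.2 * c0 p.1.2 : U s₀ → ℝ) ∈ W s₀ 1 18 := by
  have h : (fun p => p.1.1 * gg p.1.2 * c0 p.1.2 : U s₀ → ℝ) =
      (-12 : ℝ) • mon 1 1 0 1 + (32 : ℝ) • mon 1 1 2 1 + (-32 : ℝ) • mon 1 1 4 1 := by
    funext p
    simp [mon, c0]
    ring
  rw [h]
  refine Submodule.add_mem _ (Submodule.add_mem _ ?_ ?_) ?_ <;>
  exact Submodule.smul_mem _ _ (mon_mem (by omega) rfl rfl (by omega))

theorem c1_mem : (fun p => p.1.1 * gg p.1.2 * c1 p.1.2 : U s₀ → ℝ) ∈ W s₀ 1 18 := by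
  have h : (fun p => p.1.1 * gg p.1.2 * c1 p.1.2 : U s₀ → ℝ) =
      (30 : ℝ) • mon 1 1 3 0 + (-180 : ℝ) • mon 1 1 5 0 + (240 : ℝ) • mon 1 1 7 0 +
      (-96 : ℝ) • mon 1 1 9 0 := by
    funext p
    simp [mon, c1]
    ring
  rw [h]
  refine Submodule.add_mem _ (Submodule.add_mem _ (Submodule.add_mem _ ?_ ?_) ?_) ?_ <;>
  exact Submodule.smul_mem _ _ (mon_mem (by omega) rfl rfl (by omega))

theorem c2_mem : (fun p => p.1.1 * gg p.1.2 * c2 p.1.2 : U s₀ → ℝ) ∈ W s₀ 1 18 := by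
  have h : (fun p => p.1.1 * gg p.1.2 * c2 p.1.2 : U s₀ → ℝ) =
      (-30 : ℝ) • mon 1 1 3 0 + (72 : ℝ) • mon 1 1 5 0 + (-48 : ℝ) • mon 1 1 7 0 := by
    funext p
    simp [mon, c2]
    ring
  rw [h]
  refine Submodule.add_mem _ (Submodule.add_mem _ ?_ ?_) ?_ <;>
  exact Submodule.smul_mem _ _ (mon_mem (by omega) rfl rfl (by omega))

theorem coord_alg (r c p m g R s t d : ℝ) (hg : g ≠ 0)
    (hd : d = c / g + R ^ 2 * m * p / g ^ 3) :
    (r + s * d) * (t * g ^ 4) =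
      (r * g ^ 4 + (s * g * c * g ^ 2 + s * g * m * R ^ 2 * p)) * t := by
  rw [hd]
  field_simp

theorem coord_aux {c p r d : ℝ → ℝ}
    (hd : ∀ x, d x = c x / gg x + rh x ^ 2 * mm x * p x / gg x ^ 3)
    (hr : (fun q => r q.1.2 : U s₀ → ℝ) ∈ W s₀ 0 6)
    (hc : (fun q => q.1.1 * gg q.1.2 * c q.1.2 : U s₀ → ℝ) ∈ W s₀ 1 18)
    (hp : (fun q => p q.1.2 : U s₀ → ℝ) ∈ W s₀ 0 6) :
    (fun q => (r q.1.2 + q.1.1 * d q.1.2) * w s₀ q : U s₀ → ℝ) ∈ W s₀ 3 42 := by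
  have a1 := W_mono (s₀ := s₀) (a := 0 + 0) (b := 6 + 36) (a' := 1) (b' := 42) (by omega)
    (by omega) (W_mul hr g4_mem)
  have a2 := W_mono (s₀ := s₀) (a := 1 + 0) (b := 18 + 18) (a' := 1) (b' := 42) (by omega)
    (by omega) (W_mul hc g2_mem)
  have a3 := W_mono (s₀ := s₀) (a := 1 + 0 + 0) (b := 18 + 12 + 6) (a' := 1) (b' := 42)
    (by omega) (by omega) (W_mul (W_mul mm_mem rh_mem) hp)
  have a4 := W_mono (s₀ := s₀) (a := 1 + 2) (b := 42 + 0) (a' := 3) (b' := 42)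
    (by omega) (by omega) (W_mul (Submodule.add_mem _ a1 (Submodule.add_mem _ a2 a3)) s_mem)
  have h : (fun q => (r q.1.2 + q.1.1 * d q.1.2) * w s₀ q : U s₀ → ℝ) =
      ((fun q => r q.1.2) * (fun q => gg q.1.2 ^ 4) +
        ((fun q => q.1.1 * gg q.1.2 * c q.1.2) * (fun q => gg q.1.2 ^ 2) +
        (fun q => q.1.1 * gg q.1.2 * mm q.1.2) * (fun q => rh q.1.2 ^ 2) * fun q => p q.1.2)) *
      (fun q => s₀ ^ 2 - q.1.1 ^ 2) := by
    funext q
    exact coord_alg (r q.1.2) (c q.1.2) (p q.1.2) (mm q.1.2) (gg q.1.2) (rh q.1.2) q.1.1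
      (s₀ ^ 2 - q.1.1 ^ 2) (d q.1.2) (gg_pos q.1.2).ne' (hd q.1.2)
  rw [h]
  exact a4

theorem w_mem : w s₀ ∈ W s₀ 3 42 := by
  have h := W_mul (s₀ := s₀) s_mem g4_mem
  exact W_mono (s₀ := s₀) (a := 2 + 0) (b := 0 + 36) (a' := 3) (b' := 42) (by omega) (by omega) h

/-- the point of the surface -/
def F (q : U s₀) : Fin 4 → ℝ := ![ff s₀ q.1.1, r0 q.1.2 + q.1.1 * d0 q.1.2,
  r1 q.1.2 + q.1.1 * d1 q.1.2, r2 q.1.2 + q.1.1 * d2 q.1.2]

theorem F_mem (q : U s₀) : F q ∈ Surf s₀ := ⟨q.1.1, q.1.2, q.2, rfl⟩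

theorem coord_mem (i : Fin 4) : (fun q => F q i * w s₀ q : U s₀ → ℝ) ∈ W s₀ 3 42 := by
  fin_cases i
  · have h : (fun q => F q 0 * w s₀ q : U s₀ → ℝ) = fun q => gg q.1.2 ^ 4 := by
      funext q
      show ff s₀ q.1.1 * w s₀ q = _
      unfold ff w
      have h1 : s₀ ^ 2 - q.1.1 ^ 2 ≠ 0 := by
        have := sq_lt_sq' (abs_lt.1 q.2).1 (abs_lt.1 q.2).2
        linarith
      field_simp
    show (fun q => F q 0 * w s₀ q : U s₀ → ℝ) ∈ W s₀ 3 42
    rw [h]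
    exact W_mono (s₀ := s₀) (a := 0) (b := 36) (a' := 3) (b' := 42) (by omega) (by omega) g4_mem
  · exact coord_aux (fun _ => rfl) r0_mem c0_mem p0_mem
  · exact coord_aux (fun _ => rfl) r1_mem c1_mem p1_mem
  · exact coord_aux (fun _ => rfl) r2_mem c2_mem p2_mem

/-- polynomials of degree at most `m` on the surface, multiplied by the power of the factor -/
theorem poly_mem (m : ℕ) (P : MvPolynomial (Fin 4) ℝ) (hP : P.totalDegree ≤ m) :
    (fun q => MvPolynomial.eval (F q) P * w s₀ q ^ m : U s₀ → ℝ) ∈ W s₀ (3 * m) (42 * m) := by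
  have h : (fun q => MvPolynomial.eval (F q) P * w s₀ q ^ m : U s₀ → ℝ) =
      ∑ d ∈ P.support, P.coeff d • ((∏ i, (fun q => F q i * w s₀ q) ^ (d i)) *
        (w s₀) ^ (m - ∑ i, d i)) := by
    funext q
    rw [Finset.sum_apply, MvPolynomial.eval_eq', Finset.sum_mul]
    refine Finset.sum_congr rfl fun d hd => ?_
    have hdeg : ∑ i, d i ≤ m := by
      have := MvPolynomial.le_totalDegree hd
      rw [Finsupp.sum_fintype _ _ (fun _ => rfl)] at this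
      exact this.trans hP
    simp only [Pi.smul_apply, Pi.mul_apply, Finset.prod_apply, Pi.pow_apply, smul_eq_mul]
    rw [mul_assoc]
    congr 1
    simp only [mul_pow, Finset.prod_mul_distrib]
    rw [Finset.prod_pow_eq_pow_sum, mul_assoc, ← pow_add]
    congr 2
    omega
  rw [h]
  refine Submodule.sum_mem _ fun d hd => Submodule.smul_mem _ _ ?_
  have hdeg : ∑ i, d i ≤ m := by
    have := MvPolynomial.le_totalDegree hd
    rw [Finsupp.sum_fintype _ _ (fun _ => rfl)] at this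
    exact this.trans hP
  rw [Fin.prod_univ_four]
  rw [Fin.sum_univ_four] at hdeg ⊢
  have k := W_mul (W_mul (W_mul (W_mul (W_pow (coord_mem (s₀ := s₀) 0) (d 0))
    (W_pow (coord_mem (s₀ := s₀) 1) (d 1))) (W_pow (coord_mem (s₀ := s₀) 2) (d 2)))
    (W_pow (coord_mem (s₀ := s₀) 3) (d 3))) (W_pow (w_mem (s₀ := s₀)) (m - (d 0 + d 1 + d 2 + d 3)))
  exact W_mono (by omega) (by omega) k

/-- the comparison map -/
def L (s₀ : ℝ) (m : ℕ) : (Surf s₀ → ℝ) →ₗ[ℝ] (U s₀ → ℝ) where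
  toFun f q := f ⟨F q, F_mem q⟩ * w s₀ q ^ m
  map_add' f g := by funext q; simp [add_mul]
  map_smul' c f := by funext q; simp [mul_assoc]

theorem L_inj (m : ℕ) : Function.Injective (L s₀ m) := by
  intro f g h
  funext y
  obtain ⟨s, x, hs, hy⟩ := y.2
  have h1 := congrFun h ⟨(s, x), hs⟩
  have h2 : (f ⟨F ⟨(s, x), hs⟩, F_mem _⟩) * w s₀ ⟨(s, x), hs⟩ ^ m =
    (g ⟨F ⟨(s, x), hs⟩, F_mem _⟩) * w s₀ ⟨(s, x), hs⟩ ^ m := h1
  have h3 := mul_right_cancel₀ (pow_ne_zero m (w_pos (s₀ := s₀) ⟨(s, x), hs⟩).ne') h2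
  have h4 : y = ⟨F ⟨(s, x), hs⟩, F_mem _⟩ := Subtype.ext hy
  rw [h4]
  exact h3

/-- **DEG** -/
theorem t_DEG : S_DEG := by
  intro s₀ _ m
  have hm : ∀ f ∈ Vm (Surf s₀) m, L s₀ m f ∈ G s₀ (3 * m) (42 * m) := by
    rintro f ⟨P, hP, rfl⟩
    have hP' : P.totalDegree ≤ m := (MvPolynomial.mem_restrictTotalDegree (Fin 4) m P).1 hP
    exact W_le_G _ _ (poly_mem m P hP')
  have hinj : Function.Injective ((L s₀ m).restrict hm) := by
    intro f g h
    have h1 : L s₀ m f.1 = L s₀ m g.1 := congrArg Subtype.val h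
    exact Subtype.ext (L_inj m h1)
  exact (LinearMap.finrank_le_finrank_of_injective hinj).trans (G_fin _ _)

end Pool.Agent.Y74.AF
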